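import Pool.Agent.H47.Odd.Upper
import Pool.Agent.H47.Odd.Lower

set_option autoImplicit false

namespace Pool.Agent.Results.MP_22e72d_co.ExactThreshold

open Classical in
/-- The spectral radius of a graph on `n` labelled vertices: the largest real number `x` such that
`A v = x v` for some nonzero real vector `v`, where `A` is the adjacency matrix. -/
noncomputable def spectralRadius {n : ℕ} (G : SimpleGraph (Fin n)) : ℝ :=
  sSup {x : ℝ | ∃ v : Fin n → ℝ, v ≠ 0 ∧ (G.adjMatrix ℝ).mulVec v = x • v}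

/-- `f l n` is the largest spectral radius of a graph on `n` vertices that has no subgraph
isomorphic to the cycle `C_l`. -/
noncomputable def f (l n : ℕ) : ℝ :=
  sSup {x : ℝ | ∃ G : SimpleGraph (Fin n),
    (SimpleGraph.cycleGraph l).Free G ∧ x = spectralRadius G}

/-- `c` is good when, for some `n₀`, the equality `f l n = √⌊n²/4⌋` holds for every odd `l ≥ 3`
and every `n ≥ n₀` with `n > c l`. -/
def Good (c : ℝ) : Prop :=
  0 < c ∧ ∃ n₀ : ℕ, ∀ l n : ℕ, Odd l → 3 ≤ l → n₀ ≤ n → c * l < n →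
    f l n = √((n ^ 2 / 4 : ℕ) : ℝ)

open Pool.Agent.H47.Odd

theorem spectralRadius_eq {n : ℕ} (G : SimpleGraph (Fin n)) : spectralRadius G = mu G := by
  unfold spectralRadius mu
  congr 1
  ext x
  constructor
  · rintro ⟨v, hv, h⟩
    exact Module.End.hasEigenvalue_of_hasEigenvector
      (Module.End.hasEigenvector_iff.mpr ⟨Module.End.mem_eigenspace_iff.mpr h, hv⟩)
  · intro h
    obtain ⟨v, hv⟩ := h.exists_hasEigenvector
    exact ⟨v, hv.2, hv.apply_eq_smul⟩

theorem f_bdd (l n : ℕ) (hn : 1 ≤ n) : BddAbove {x : ℝ | ∃ G : SimpleGraph (Fin n),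
    (SimpleGraph.cycleGraph l).Free G ∧ x = spectralRadius G} := by
  refine ⟨n, ?_⟩
  rintro x ⟨G, _, rfl⟩
  rw [spectralRadius_eq]
  exact mu_le_card n hn G

theorem f_ge (l n : ℕ) (hn : 1 ≤ n) (G : SimpleGraph (Fin n))
    (hG : ¬ SimpleGraph.IsContained (SimpleGraph.cycleGraph l) G) : mu G ≤ f l n := by
  unfold f
  apply le_csSup (f_bdd l n hn)
  exact ⟨G, hG, (spectralRadius_eq G).symm⟩

theorem good_of_lt (c : ℝ) (hc : (3 + √5) / 2 < c) : Good c := by
  have h5 := sqrt5_bounds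
  have hcpos : 0 < c := by linarith [h5.1]
  have hcc : c0 * ((3 + √5) / 2) = 1 := by
    unfold c0
    have := Real.sq_sqrt (show (0 : ℝ) ≤ 5 by norm_num)
    nlinarith
  have hc0 : 0 < c0 := by linarith [c0_bounds.1]
  have hinv : 1 / c < c0 := by
    rw [div_lt_iff₀ hcpos]
    calc (1 : ℝ) = c0 * ((3 + √5) / 2) := hcc.symm
      _ < c0 * c := mul_lt_mul_of_pos_left hc hc0
  obtain ⟨n1, hn1⟩ := upper_bound (min (c0 - 1 / c) (1 / 10))
    (lt_min (by linarith) (by norm_num)) (min_le_right _ _)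
  refine ⟨hcpos, max n1 2, ?_⟩
  intro l n hodd hl hn hcl
  have hn1' : n1 ≤ n := (le_max_left _ _).trans hn
  have hn2 : 2 ≤ n := (le_max_right _ _).trans hn
  have hln : (l : ℝ) ≤ (c0 - min (c0 - 1 / c) (1 / 10)) * n := by
    have h1 : (l : ℝ) ≤ 1 / c * n := by
      rw [div_mul_eq_mul_div, one_mul, le_div_iff₀ hcpos]
      linarith
    have h2 : 1 / c ≤ c0 - min (c0 - 1 / c) (1 / 10) := by
      linarith [min_le_left (c0 - 1 / c) (1 / 10)]
    have h3 : 1 / c * (n : ℝ) ≤ (c0 - min (c0 - 1 / c) (1 / 10)) * n :=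
      mul_le_mul_of_nonneg_right h2 (Nat.cast_nonneg n)
    linarith
  apply le_antisymm
  · unfold f
    apply csSup_le
    · exact ⟨_, turan2 n, turan2_free n l hodd hl, rfl⟩
    · rintro x ⟨G, hG, rfl⟩
      rw [spectralRadius_eq]
      have h := hn1 (Fin n) (by rw [Fintype.card_fin]; exact hn1') G l hodd hl
        (by rw [Fintype.card_fin]; exact hln) hG
      rw [Fintype.card_fin] at h
      exact h
  · exact (turan2_mu n hn2).trans (f_ge l n (by omega) _ (turan2_free n l hodd hl))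

theorem not_good_of_lt (c : ℝ) (hc : c < (3 + √5) / 2) : ¬ Good c := by
  rintro ⟨hcpos, n₀, hgood⟩
  have h5 := sqrt5_bounds
  have hsq := Real.sq_sqrt (show (0 : ℝ) ≤ 5 by norm_num)
  set c' : ℝ := max c 2 with hc'
  have hc'1 : c ≤ c' := le_max_left _ _
  have hc'2 : 2 ≤ c' := le_max_right _ _
  have hc'3 : c' < (3 + √5) / 2 := max_lt hc (by linarith [h5.1])
  set ρ : ℝ := c' + (3 + √5) / 2 with hρ
  have hρ1 : 2 * c' < ρ := by rw [hρ]; linarith
  have hρ2 : ρ < 3 + √5 := by rw [hρ]; linarith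
  have hρ4 : 4 < ρ := by linarith
  -- the quadratic `t ^ 2 - 6 t + 4` is negative at `ρ`
  have hquad : ρ ^ 2 - 6 * ρ + 4 < 0 := by
    have h1 : 0 < (3 + √5 - ρ) * (ρ - (3 - √5)) := by
      apply mul_pos
      · linarith
      · linarith [h5.1]
    nlinarith
  -- choose `s` large
  obtain ⟨s, hs⟩ := exists_nat_ge (max (max ((n₀ : ℝ) + 1) ((c' + 1) / (ρ - 2 * c')))
    ((2 * ρ) / (-(ρ ^ 2 - 6 * ρ + 4)) + 1))
  have hs1 : (n₀ : ℝ) + 1 ≤ s := ((le_max_left _ _).trans (le_max_left _ _)).trans hs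
  have hs2 : (c' + 1) / (ρ - 2 * c') ≤ s := ((le_max_right _ _).trans (le_max_left _ _)).trans hs
  have hs3 : (2 * ρ) / (-(ρ ^ 2 - 6 * ρ + 4)) + 1 ≤ s := (le_max_right _ _).trans hs
  have hs2' : c' + 1 ≤ s * (ρ - 2 * c') := by
    rwa [div_le_iff₀ (by linarith)] at hs2
  have hs3' : 2 * ρ < s * (-(ρ ^ 2 - 6 * ρ + 4)) := by
    have h1 : (2 * ρ) / (-(ρ ^ 2 - 6 * ρ + 4)) < s := by linarith
    rwa [div_lt_iff₀ (by linarith)] at h1
  have hspos : 1 ≤ s := by
    have : (1 : ℝ) ≤ s := by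
      have : (0 : ℝ) ≤ n₀ := Nat.cast_nonneg _
      linarith
    exact_mod_cast this
  have hsr : (1 : ℝ) ≤ s := by exact_mod_cast hspos
  set n : ℕ := ⌊ρ * s⌋₊ with hn
  have hρs : 0 ≤ ρ * s := by positivity
  have hn1 : (n : ℝ) ≤ ρ * s := Nat.floor_le hρs
  have hn2 : ρ * s < n + 1 := Nat.lt_floor_add_one _
  have hns : (4 : ℝ) * s < n + 1 := by nlinarith
  have hsn : s < n := by
    have : (s : ℝ) < n := by nlinarith
    exact_mod_cast this
  have hn0 : n₀ ≤ n := by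
    have : (n₀ : ℝ) ≤ n := by nlinarith
    exact_mod_cast this
  have hcl : c * ((2 * s + 1 : ℕ) : ℝ) < n := by
    push_cast
    have h1 : c * (2 * (s : ℝ) + 1) ≤ c' * (2 * s + 1) :=
      mul_le_mul_of_nonneg_right hc'1 (by positivity)
    have h2 : c' * (2 * (s : ℝ) + 1) = 2 * c' * s + c' := by ring
    nlinarith
  have heq := hgood (2 * s + 1) n ⟨s, rfl⟩ (by omega) hn0 hcl
  have hineq : (n : ℝ) ^ 2 - 6 * s * n + 2 * n + 4 * s ^ 2 < 0 := by
    -- `t ^ 2 - 6 s t` is increasing for `t ≥ 3 s`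
    have h1 : (n : ℝ) ^ 2 - 6 * s * n ≤ (ρ * s) ^ 2 - 6 * s * (ρ * s) := by
      have h2 : 0 ≤ (ρ * s - n) * (ρ * s + n - 6 * s) := by
        apply mul_nonneg (by linarith)
        have h3 : 5 * (s : ℝ) ≤ ρ * s ∨ ρ * s < 5 * s := le_or_gt _ _
        nlinarith
      nlinarith
    have h4 : (ρ * s) ^ 2 - 6 * s * (ρ * s) + 4 * (s : ℝ) ^ 2 = s * (s * (ρ ^ 2 - 6 * ρ + 4)) := by
      ring
    have h5 : s * (s * (ρ ^ 2 - 6 * ρ + 4)) + 2 * (ρ * s) < 0 := by
      have h6 : s * (ρ ^ 2 - 6 * ρ + 4) < -(2 * ρ) := by linarith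
      nlinarith
    linarith
  have h7 := joinGraph_mu n s hspos hsn hineq
  have h8 := f_ge (2 * s + 1) n (by omega) _ (joinGraph_free n s hspos)
  have h9 := sqrt_floor_le n
  linarith

/-- The threshold asked for is `c* = (3 + √5) / 2`. -/
theorem result : IsGLB {c : ℝ | Good c} ((3 + √5) / 2) := by
  constructor
  · intro c hc
    by_contra hcon
    exact not_good_of_lt c (lt_of_not_ge hcon) hc
  · intro b hb
    by_contra hcon
    push Not at hcon
    have h1 : (3 + √5) / 2 < (b + (3 + √5) / 2) / 2 := by linarith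
    have h2 := hb (good_of_lt _ h1)
    linarith

end Pool.Agent.Results.MP_22e72d_co.ExactThreshold
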